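import Pool.Agent.QUD.StmtsX

set_option autoImplicit false

namespace Pool.Agent.QUD.H77

open MeasureTheory Complex Filter Topology ProbabilityTheory Pool.Agent.H16Iso Pool.Agent.H62T
open Pool.Agent.H16F (Sublin ind Nm CP len qa c0 Ar)
open Pool.Agent.AEU Pool.Agent.XQ
open Pool.Agent.H1Gen (det CCW poly)
open Pool.Agent.H62T.H85 (nrm off)
open Pool.Agent.H16F.H69 (bt)

theorem ip_rot (z : ℂ) (t : ℝ) (hz : ‖z‖ = 1) : ip z (z * Complex.exp (t * I)) = Real.cos t := by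
  have h1 : z.re * z.re + z.im * z.im = 1 := by
    have h2 := Complex.sq_norm z
    rw [hz, Complex.normSq_apply] at h2
    linarith
  have h3 : Complex.exp (t * I) = ⟨Real.cos t, Real.sin t⟩ := by
    apply Complex.ext
    · rw [Complex.exp_ofReal_mul_I_re]
    · rw [Complex.exp_ofReal_mul_I_im]
  unfold ip
  rw [h3, Complex.mul_re, Complex.mul_im]
  simp only
  linear_combination (Real.cos t) * h1

theorem ip_comm' (z w : ℂ) : ip z w = ip w z := by
  unfold ip; ring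

theorem cos_bt {n : ℕ} [NeZero n] (hn : 3 ≤ n) {v : Fin n → ℂ} (hv : H62T.H85.CC v)
    (a : Fin n) : ip (nrm v a) (nrm v (a + 1)) = Real.cos (bt v a) := by
  rw [H16F.H69.step_bt hn hv a]
  exact ip_rot _ _ (H62T.H85.norm_nrm hn hv a)

theorem ang {t x : ℝ} (ht0 : 0 < t) (ht1 : t < Real.pi) (hx0 : 0 < x) (hx1 : x < Real.pi)
    (h : Real.cos t = -Real.cos x) : t = Real.pi - x := by
  rw [← Real.cos_pi_sub] at h
  exact Real.injOn_cos ⟨ht0.le, ht1.le⟩ ⟨by linarith, by linarith⟩ h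

theorem cys (hidx : IdxStmt) : CysStmt := by
  intro n _ v hn hv x y l0 hx0 hx1 hy0 hy1 hsd
  obtain ⟨-, -, hvx⟩ := hidx n v hn hv
  have hcc : H62T.H85.CC v := hv
  have hinj : ∀ a b : Fin n, sd v a = sd v b → a = b := fun a b h =>
    H62T.H85.side_inj hn hcc h
  obtain ⟨i, j, k, p, w, h1, h2, hik, hx, hy, hl⟩ := hsd
  obtain ⟨a, hp, ha⟩ := hvx i j p h1
  obtain ⟨b, hw, hb⟩ := hvx j k w h2
  rcases ha with ⟨hi, hj⟩ | ⟨hj, hi⟩
  · rcases hb with ⟨hj', hk⟩ | ⟨hk, hj'⟩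
    · have hab : a + 1 = b := hinj _ _ (hj.symm.trans hj')
      subst hab
      refine ⟨a + 1, ?_, Or.inl ⟨?_, ?_⟩⟩
      · rw [H16F.H69.len_eq hn hcc, ← hl, hp, hw, norm_sub_rev]
        rfl
      · have e : a + 1 - 1 = a := add_sub_cancel_right a 1
        rw [e]
        refine ang (H16F.H69.bt_pos hn hcc a) (H16F.H69.bt_lt hn hcc a) hx0 hx1 ?_
        rw [← cos_bt hn hcc a, ← hx, hi, hj]
        rfl
      · refine ang (H16F.H69.bt_pos hn hcc _) (H16F.H69.bt_lt hn hcc _) hy0 hy1 ?_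
        rw [← cos_bt hn hcc (a + 1), ← hy, hj, hk]
        rfl
    · exfalso
      have hab : a + 1 = b + 1 := hinj _ _ (hj.symm.trans hj')
      have hab' : a = b := add_right_cancel hab
      apply hik
      rw [hi, hk, hab']
  · rcases hb with ⟨hj', hk⟩ | ⟨hk, hj'⟩
    · exfalso
      have hab : a = b := hinj _ _ (hj.symm.trans hj')
      apply hik
      rw [hi, hk, hab]
    · have hab : a = b + 1 := hinj _ _ (hj.symm.trans hj')
      subst hab
      refine ⟨b + 1, ?_, Or.inr ⟨?_, ?_⟩⟩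
      · rw [H16F.H69.len_eq hn hcc, ← hl, hp, hw]
        rfl
      · have e : b + 1 - 1 = b := add_sub_cancel_right b 1
        rw [e]
        refine ang (H16F.H69.bt_pos hn hcc b) (H16F.H69.bt_lt hn hcc b) hy0 hy1 ?_
        rw [← cos_bt hn hcc b, ← hy, hj, hk, ip_comm']
        rfl
      · refine ang (H16F.H69.bt_pos hn hcc _) (H16F.H69.bt_lt hn hcc _) hx0 hx1 ?_
        rw [← cos_bt hn hcc (b + 1), ← hx, hj, hi, ip_comm']
        rfl

end Pool.Agent.QUD.H77
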